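import Pool.Agent.Helper69.QC.St

/-!
# Project QD, part C, module MBB: Moebius maps of the disc
-/

set_option autoImplicit false

open Complex MeasureTheory Set Filter Topology Metric
open scoped Real ComplexConjugate

namespace Pool.Agent.Helper6.QC

open Pool.Agent.Helper69.QC

theorem MBB_key (p ζ : ℂ) :
    ‖1 + conj p * ζ‖ ^ 2 = ‖ζ + p‖ ^ 2 + (1 - ‖p‖ ^ 2) * (1 - ‖ζ‖ ^ 2) := by
  simp only [Complex.sq_norm, Complex.normSq_apply, Complex.add_re, Complex.add_im, Complex.mul_re,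
    Complex.mul_im, Complex.conj_re, Complex.conj_im, Complex.one_re, Complex.one_im]
  ring

theorem MBB_pos {p ζ : ℂ} (hp : ‖p‖ < 1) (hζ : ‖ζ‖ < 1) : 0 < (1 - ‖p‖ ^ 2) * (1 - ‖ζ‖ ^ 2) := by
  have h1 : ‖p‖ ^ 2 < 1 := by
    rw [sq_lt_one_iff₀ (norm_nonneg p)]
    exact hp
  have h2 : ‖ζ‖ ^ 2 < 1 := by
    rw [sq_lt_one_iff₀ (norm_nonneg ζ)]
    exact hζ
  exact mul_pos (by linarith) (by linarith)

theorem MBB_ne {p ζ : ℂ} (hp : ‖p‖ < 1) (hζ : ‖ζ‖ < 1) : 1 + conj p * ζ ≠ 0 := by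
  intro h
  have h1 := MBB_key p ζ
  rw [h, norm_zero] at h1
  have h2 := MBB_pos hp hζ
  nlinarith [sq_nonneg ‖ζ + p‖]

theorem MBB_lt {p ζ : ℂ} (hp : ‖p‖ < 1) (hζ : ‖ζ‖ < 1) : ‖mb p ζ‖ < 1 := by
  unfold mb
  rw [norm_div, div_lt_one (norm_pos_iff.2 (MBB_ne hp hζ))]
  refine lt_of_pow_lt_pow_left₀ 2 (norm_nonneg _) ?_
  rw [MBB_key]
  linarith [MBB_pos hp hζ]

theorem MBB_le {p ζ : ℂ} (hp : ‖p‖ < 1) (hζ : ‖ζ‖ < 1) :
    ‖mb p ζ‖ ≤ (‖p‖ + ‖ζ‖) / (1 + ‖p‖ * ‖ζ‖) := by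
  have hP := norm_nonneg p
  have hZ := norm_nonneg ζ
  have hPZ := mul_nonneg hP hZ
  have hB : ‖1 + conj p * ζ‖ ≤ 1 + ‖p‖ * ‖ζ‖ := by
    refine (norm_add_le _ _).trans ?_
    rw [norm_one, norm_mul, Complex.norm_conj]
  have hB0 : 0 < ‖1 + conj p * ζ‖ := norm_pos_iff.2 (MBB_ne hp hζ)
  have hk := MBB_key p ζ
  have hc := MBB_pos hp hζ
  unfold mb
  rw [norm_div, div_le_div_iff₀ hB0 (by linarith)]
  refine le_of_sq_le_sq ?_ (mul_nonneg (add_nonneg hP hZ) hB0.le)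
  generalize ‖1 + conj p * ζ‖ = B at *
  generalize ‖ζ + p‖ = A at *
  generalize ‖p‖ = P at *
  generalize ‖ζ‖ = Z at *
  have h1 : B ^ 2 ≤ (1 + P * Z) ^ 2 := pow_le_pow_left₀ hB0.le hB 2
  have h2 : (1 + P * Z) ^ 2 = (P + Z) ^ 2 + (1 - P ^ 2) * (1 - Z ^ 2) := by ring
  have h3 : A ^ 2 = B ^ 2 - (1 - P ^ 2) * (1 - Z ^ 2) := by linarith
  have h4 : (A * (1 + P * Z)) ^ 2 = A ^ 2 * (1 + P * Z) ^ 2 := by ring
  have h5 : ((P + Z) * B) ^ 2 = (P + Z) ^ 2 * B ^ 2 := by ring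
  rw [h4, h5, h3]
  generalize (1 - P ^ 2) * (1 - Z ^ 2) = c at *
  have h6 : (P + Z) ^ 2 = (1 + P * Z) ^ 2 - c := by linarith
  rw [h6]
  nlinarith [mul_nonneg hc.le (sub_nonneg.2 h1)]

theorem MBB_self {p : ℂ} (hp : ‖p‖ < 1) : 1 - conj p * p ≠ 0 := by
  have h := MBB_ne (p := -p) (ζ := p) (by rwa [norm_neg]) hp
  intro h1
  apply h
  rw [map_neg, ← h1]
  ring

theorem MBB_inv {p ζ : ℂ} (hp : ‖p‖ < 1) (hζ : ‖ζ‖ < 1) : mb (-p) (mb p ζ) = ζ := by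
  have h1 := MBB_ne hp hζ
  have h2 := MBB_self hp
  have h3 : 1 + conj (-p) * mb p ζ ≠ 0 := MBB_ne (by rwa [norm_neg]) (MBB_lt hp hζ)
  unfold mb at h3 ⊢
  rw [div_eq_iff h3, map_neg]
  obtain ⟨x, hxd⟩ : ∃ x, x = (ζ + p) / (1 + conj p * ζ) := ⟨_, rfl⟩
  have hx : x * (1 + conj p * ζ) = ζ + p := by rw [hxd, div_mul_cancel₀ _ h1]
  rw [← hxd]
  apply mul_right_cancel₀ h1
  linear_combination (1 + ζ * conj p) * hx

theorem MBB_alg (w wb p pb ζ : ℂ) (h1 : 1 + pb * ζ ≠ 0) (h2 : 1 - wb * p ≠ 0) (h3 : 1 - w * pb ≠ 0)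
    (h4 : 1 + (pb - wb) / (1 - wb * p) * ζ ≠ 0) (h5 : 1 + -wb * ((ζ + p) / (1 + pb * ζ)) ≠ 0) :
    ((ζ + p) / (1 + pb * ζ) + -w) / (1 + -wb * ((ζ + p) / (1 + pb * ζ))) * (1 - wb * p) =
      (1 - w * pb) * ((ζ + (p - w) / (1 - w * pb)) / (1 + (pb - wb) / (1 - wb * p) * ζ)) := by
  obtain ⟨x, hxd⟩ : ∃ x, x = (ζ + p) / (1 + pb * ζ) := ⟨_, rfl⟩
  obtain ⟨q, hqd⟩ : ∃ q, q = (p - w) / (1 - w * pb) := ⟨_, rfl⟩
  obtain ⟨r, hrd⟩ : ∃ r, r = (pb - wb) / (1 - wb * p) := ⟨_, rfl⟩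
  have hx : x * (1 + pb * ζ) = ζ + p := by rw [hxd, div_mul_cancel₀ _ h1]
  have hq : q * (1 - w * pb) = p - w := by rw [hqd, div_mul_cancel₀ _ h3]
  have hr : r * (1 - wb * p) = pb - wb := by rw [hrd, div_mul_cancel₀ _ h2]
  rw [← hrd] at h4
  rw [← hxd] at h5
  rw [← hxd, ← hqd, ← hrd, div_mul_eq_mul_div, mul_div_assoc', div_eq_div_iff h5 h4]
  apply mul_right_cancel₀ h1
  linear_combination (x - w) * ζ * (1 + pb * ζ) * hr - (1 - wb * x) * (1 + pb * ζ) * hq +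
    ((1 - wb * p) + (pb - wb) * ζ + ((1 - w * pb) * ζ + (p - w)) * wb) * hx

theorem MBB_sym (w p : ℂ) : ‖1 - conj w * p‖ = ‖1 - w * conj p‖ := by
  rw [← Complex.norm_conj]
  congr 1
  simp

theorem cMBB : St_MBB := by
  intro p hp
  rw [mem_ball_zero_iff] at hp
  refine ⟨?_, ?_, ?_, ?_⟩
  · intro ζ hζ
    rw [mem_ball_zero_iff] at hζ
    have h1 : DifferentiableAt ℂ (fun ζ : ℂ => (ζ + p) / (1 + conj p * ζ)) ζ :=
      (differentiableAt_id.add_const p).div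
        ((differentiableAt_id.const_mul (conj p)).const_add 1) (MBB_ne hp hζ)
    exact h1.differentiableWithinAt
  · simp [mb]
  · intro ζ hζ
    rw [mem_ball_zero_iff] at hζ
    refine ⟨mem_ball_zero_iff.2 (MBB_lt hp hζ), MBB_le hp hζ, MBB_inv hp hζ, ?_⟩
    have h := MBB_inv (p := -p) (ζ := ζ) (by rwa [norm_neg]) hζ
    rwa [neg_neg] at h
  · intro w hw
    rw [mem_ball_zero_iff] at hw
    refine ⟨?_, ?_⟩
    · unfold mb
      rw [norm_div, norm_div, map_neg, map_neg]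
      have h1 : ‖p + -w‖ = ‖w + -p‖ := by
        rw [← norm_neg]
        congr 1
        ring
      have h2 : ‖1 + -conj w * p‖ = ‖1 + -conj p * w‖ := by
        have e1 : 1 + -conj w * p = 1 - conj w * p := by ring
        have e2 : 1 + -conj p * w = 1 - w * conj p := by ring
        rw [e1, e2, MBB_sym]
      rw [h1, h2]
    · intro ζ hζ
      rw [mem_ball_zero_iff] at hζ
      have hw' : ‖-w‖ < 1 := by rwa [norm_neg]
      have h1 := MBB_ne hp hζ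
      have h2 : 1 - conj w * p ≠ 0 := by
        have h := MBB_ne (p := -w) (ζ := p) hw' hp
        rw [map_neg] at h
        intro h'
        apply h
        rw [← h']
        ring
      have h3 : 1 - w * conj p ≠ 0 := by
        rw [← norm_pos_iff, ← MBB_sym, norm_pos_iff]
        exact h2
      obtain ⟨q, hq⟩ : ∃ q, q = (p - w) / (1 - w * conj p) := ⟨_, rfl⟩
      have hqc : conj q = (conj p - conj w) / (1 - conj w * p) := by
        rw [hq]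
        simp
      have hqn : ‖q‖ = ‖mb (-w) p‖ := by
        unfold mb
        rw [hq, norm_div, norm_div, ← MBB_sym, map_neg]
        have e1 : 1 + -conj w * p = 1 - conj w * p := by ring
        rw [e1, sub_eq_add_neg p w]
      have hq1 : ‖q‖ < 1 := by
        rw [hqn]
        exact MBB_lt hw' hp
      have h4 := MBB_ne hq1 hζ
      have h5 : 1 + conj (-w) * mb p ζ ≠ 0 := MBB_ne hw' (MBB_lt hp hζ)
      rw [map_neg] at h5
      rw [hqc] at h4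
      have h6 := MBB_alg w (conj w) p (conj p) ζ h1 h2 h3 h4 h5
      have h7 : mb (-w) (mb p ζ) * (1 - conj w * p) = (1 - w * conj p) * mb q ζ := by
        unfold mb
        rw [hqc, map_neg, hq]
        exact h6
      have h8 : ‖mb (-w) (mb p ζ)‖ = ‖mb q ζ‖ := by
        have h9 := congrArg norm h7
        rw [norm_mul, norm_mul, MBB_sym, mul_comm] at h9
        exact mul_left_cancel₀ (norm_ne_zero_iff.2 h3) h9
      rw [h8, ← hqn]
      exact MBB_le hq1 hζ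

end Pool.Agent.Helper6.QC
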