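import Pool.Agent.Helper68.QC.St1

/-!
# PART M, module KBU: the Neumann series on the torus with uniform constants
-/

set_option autoImplicit false

open MeasureTheory Set Filter Topology Complex
open scoped ContDiff ComplexConjugate ENNReal

namespace Pool.Agent.Helper6.QC

open Pool.Agent.Helper68.QC

theorem KBU_Bd_zero {M : ℝ} {f : ℝ × ℝ → ℂ} : Bd 0 M f ↔ ∀ p, ‖f p‖ ≤ M := Iff.rfl

theorem KBU_Bd_succ {s : ℕ} {M : ℝ} {f : ℝ × ℝ → ℂ} :
    Bd (s + 1) M f ↔ (∀ p, ‖f p‖ ≤ M) ∧ Bd s M (KB.D1 f) ∧ Bd s M (KB.D2 f) := Iff.rfl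

theorem KBU_A_zero (f : ℝ × ℝ → ℂ) : KB.A 0 f = KB.N f := rfl

theorem KBU_A_succ (s : ℕ) (f : ℝ × ℝ → ℂ) :
    KB.A (s + 1) f = KB.N f + (KB.A s (KB.D1 f) + KB.A s (KB.D2 f)) := rfl

theorem KBU_Bd_bound {s : ℕ} {M : ℝ} {f : ℝ × ℝ → ℂ} (h : Bd s M f) : ∀ p, ‖f p‖ ≤ M := by
  cases s with
  | zero => exact h
  | succ s => exact h.1

theorem KBU_Bd_pred (s : ℕ) {M : ℝ} {f : ℝ × ℝ → ℂ} (h : Bd (s + 1) M f) : Bd s M f := by
  induction s generalizing f with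
  | zero => exact h.1
  | succ s ih => exact ⟨h.1, ih h.2.1, ih h.2.2⟩

/-- size of a function with bounded derivatives -/
theorem KBU_A_le (s : ℕ) (M : ℝ) : ∃ C : ℝ, ∀ f, KB.SP f → Bd s M f → KB.A s f ≤ C := by
  induction s with
  | zero => exact ⟨M, fun f hf h => KB.N_le_of_bound hf.continuous h⟩
  | succ s ih =>
    obtain ⟨C, hC⟩ := ih
    refine ⟨M + (C + C), fun f hf h => ?_⟩
    have h1 := KB.N_le_of_bound hf.continuous h.1
    have h2 := hC _ (hf.hD (1, 0)) h.2.1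
    have h3 := hC _ (hf.hD (0, 1)) h.2.2
    rw [KBU_A_succ]
    linarith

/-- multiplication with uniform constants -/
theorem KBU_A_mul (s : ℕ) (M : ℝ) : ∃ C : ℝ, 0 ≤ C ∧ ∀ f g, KB.SP f → KB.SP g → Bd s M f →
    KB.A s (fun p => f p * g p) ≤ C * KB.A s g := by
  induction s with
  | zero =>
    refine ⟨|M|, abs_nonneg M, fun f g hf hg h => ?_⟩
    exact KB.N_mul_le hg.continuous hf.continuous (abs_nonneg M)
      (fun p => (h p).trans (le_abs_self M))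
  | succ s ih =>
    obtain ⟨C, hC, h0⟩ := ih
    refine ⟨|M| + C + C + C, by positivity, fun f g hf hg h => ?_⟩
    have hfb := KBU_Bd_pred s h
    have e0 := KB.N_mul_le hg.continuous hf.continuous (abs_nonneg M)
      (fun p => (h.1 p).trans (le_abs_self M))
    have e1 := KB.A_add s ((hf.hD (1, 0)).mul hg) (hf.mul (hg.hD (1, 0)))
    have e2 := KB.A_add s ((hf.hD (0, 1)).mul hg) (hf.mul (hg.hD (0, 1)))
    rw [← KB.D_mul _ hf hg] at e1 e2
    have e3 := h0 _ g (hf.hD (1, 0)) hg h.2.1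
    have e4 := h0 _ g (hf.hD (0, 1)) hg h.2.2
    have e5 := h0 f _ hf (hg.hD (1, 0)) hfb
    have e6 := h0 f _ hf (hg.hD (0, 1)) hfb
    have e7 := KB.A_le_succ s g
    have e8 := KB.A_nonneg s (KB.D1 g)
    have e9 := KB.A_nonneg s (KB.D2 g)
    have e10 := KB.N_nonneg g
    have e12 : KB.A (s + 1) g = KB.N g + (KB.A s (KB.D1 g) + KB.A s (KB.D2 g)) := rfl
    have e13 : |M| * KB.N g ≤ |M| * KB.A (s + 1) g :=
      mul_le_mul_of_nonneg_left (by linarith) (abs_nonneg M)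
    have e14 : C * KB.A s g ≤ C * KB.A (s + 1) g := mul_le_mul_of_nonneg_left e7 hC
    have e16 : C * (KB.A s (KB.D1 g) + KB.A s (KB.D2 g)) ≤ C * KB.A (s + 1) g :=
      mul_le_mul_of_nonneg_left (by linarith) hC
    calc KB.A (s + 1) (fun p => f p * g p)
        = KB.N (fun p => f p * g p) + (KB.A s (KB.D1 (fun p => f p * g p)) +
            KB.A s (KB.D2 (fun p => f p * g p))) := rfl
      _ ≤ (|M| + C + C + C) * KB.A (s + 1) g := by linarith

/-- the basic recursion, finite sums -/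
theorem KBU_recur {a b : ℕ → ℝ} {k B : ℝ} (hk : k < 1) (ha : ∀ n, 0 ≤ a n)
    (hB : ∀ m, ∑ n ∈ Finset.range m, b n ≤ B) (h : ∀ n, a (n + 1) ≤ k * a n + b n) (m : ℕ) :
    ∑ n ∈ Finset.range m, a n ≤ 1 / (1 - k) * (a 0 + B) := by
  have hk' : 0 < 1 - k := by linarith
  rw [div_mul_eq_mul_div, one_mul, le_div_iff₀ hk']
  have h1 : ∑ i ∈ Finset.range m, a (i + 1) ≤ k * ∑ i ∈ Finset.range m, a i +
      ∑ i ∈ Finset.range m, b i := by
    rw [Finset.mul_sum, ← Finset.sum_add_distrib]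
    exact Finset.sum_le_sum fun i _ => h i
  have h2 : ∑ i ∈ Finset.range m, a i ≤ ∑ i ∈ Finset.range (m + 1), a i :=
    Finset.sum_le_sum_of_subset_of_nonneg (Finset.range_subset_range.2 (Nat.le_succ m))
      fun i _ _ => ha i
  rw [Finset.sum_range_succ'] at h2
  have h3 := hB m
  nlinarith

/-- the recursion hypotheses of the Neumann series -/
structure KBURec (μ : ℝ × ℝ → ℂ) (k : ℝ) (T r : ℕ → ℝ × ℝ → ℂ) (e : ℕ → ℂ) : Prop where
  hT : ∀ n, KB.SP (T n)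
  hr : ∀ n, KB.SP (r n)
  hrc : ∀ n, T (n + 1) = fun p => (μ p * KB.Sop (T n) p + r n p) - e n
  hN : ∀ n, KB.N (T (n + 1)) ≤ k * KB.N (T n) + KB.N (r n)

theorem KBU_step {μ : ℝ × ℝ → ℂ} (hμ : KB.SP μ) {k : ℝ} (hk0 : 0 ≤ k) (hb : ∀ p, ‖μ p‖ ≤ k)
    {T r : ℕ → ℝ × ℝ → ℂ} {e : ℕ → ℂ} (h : KBURec μ k T r e) (v : ℝ × ℝ)
    (hv : ∀ f, KB.SP f → KB.D v (KB.Sop f) = KB.Sop (KB.D v f)) :
    KBURec μ k (fun n => KB.D v (T n))
      (fun n => fun p => KB.D v μ p * KB.Sop (T n) p + KB.D v (r n) p) (fun _ => 0) := by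
  have hr' : ∀ n, KB.SP (fun p => KB.D v μ p * KB.Sop (T n) p + KB.D v (r n) p) := fun n =>
    ((hμ.hD v).mul (KB.Sop_sp (h.hT n))).add ((h.hr n).hD v)
  have hrec' : ∀ n, KB.D v (T (n + 1)) = fun p => (μ p * KB.Sop (KB.D v (T n)) p +
      (KB.D v μ p * KB.Sop (T n) p + KB.D v (r n) p)) - (0 : ℂ) := by
    intro n
    rw [h.hrc n, KB.D_sub v ((hμ.mul (KB.Sop_sp (h.hT n))).add (h.hr n)) (KB.SP.const _),
      KB.D_add v (hμ.mul (KB.Sop_sp (h.hT n))) (h.hr n), KB.D_mul v hμ (KB.Sop_sp (h.hT n)),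
      KB.D_const, hv _ (h.hT n)]
    ext p; ring
  refine ⟨fun n => (h.hT n).hD v, hr', hrec', ?_⟩
  intro n
  rw [hrec' n]
  simp only [sub_zero]
  have h1 := KB.N_add (hμ.mul (KB.Sop_sp ((h.hT n).hD v))).continuous (hr' n).continuous
  have h2 := KB.N_mul_le (KB.Sop_sp ((h.hT n).hD v)).continuous hμ.continuous hk0 hb
  have h3 := KB.N_Sop_le ((h.hT n).hD v)
  have h4 := mul_le_mul_of_nonneg_left h3 hk0
  linarith

/-- Neumann series, uniform version -/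
theorem KBU_neumann {k : ℝ} (hk0 : 0 ≤ k) (hk : k < 1) (s : ℕ) (M : ℝ) : ∃ C : ℝ, 0 ≤ C ∧
    ∀ μ, KB.SP μ → (∀ p, ‖μ p‖ ≤ k) → Bd s M μ → ∀ T r e, KBURec μ k T r e → ∀ B : ℝ,
      (∀ m, ∑ n ∈ Finset.range m, KB.A s (r n) ≤ B) →
      ∀ m, ∑ n ∈ Finset.range m, KB.A s (T n) ≤ C * (KB.A s (T 0) + B) := by
  induction s with
  | zero =>
    refine ⟨1 / (1 - k), by
      have : 0 < 1 - k := by linarith
      positivity, fun μ hμ hb _ T r e h B hB m => ?_⟩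
    exact KBU_recur hk (fun n => KB.N_nonneg _) hB h.hN m
  | succ s ih =>
    obtain ⟨C, hC, hC2⟩ := ih
    obtain ⟨C1, hC1, hC3⟩ := KBU_A_mul s M
    refine ⟨C + 2 * (C * (1 + C1 * C)), by positivity, fun μ hμ hb hM T r e h B hB m => ?_⟩
    have hMp := KBU_Bd_pred s hM
    have hB0 : ∀ m, ∑ n ∈ Finset.range m, KB.A s (r n) ≤ B := fun m =>
      (Finset.sum_le_sum fun n _ => KB.A_le_succ s (r n)).trans (hB m)
    have hTs := hC2 μ hμ hb hMp T r e h B hB0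
    have hT0 := KB.A_le_succ s (T 0)
    obtain ⟨X, hX⟩ : ∃ X, X = KB.A (s + 1) (T 0) + B := ⟨_, rfl⟩
    have hTs' : ∀ m, ∑ n ∈ Finset.range m, KB.A s (T n) ≤ C * X := by
      intro m
      refine (hTs m).trans (mul_le_mul_of_nonneg_left ?_ hC)
      rw [hX]
      linarith
    have hN : ∑ n ∈ Finset.range m, KB.N (T n) ≤ C * X :=
      (Finset.sum_le_sum fun n _ => KB.N_le_A s (T n)).trans (hTs' m)
    -- derivative step
    have step : ∀ v : ℝ × ℝ, (∀ f, KB.SP f → KB.D v (KB.Sop f) = KB.Sop (KB.D v f)) →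
        Bd s M (KB.D v μ) → (∀ f, KB.A s (KB.D v f) ≤ KB.A (s + 1) f) →
        ∑ n ∈ Finset.range m, KB.A s (KB.D v (T n)) ≤ C * (X + C1 * (C * X)) := by
      intro v hv hMv hle
      have h1 : ∀ m, ∑ n ∈ Finset.range m,
          KB.A s (fun p => KB.D v μ p * KB.Sop (T n) p + KB.D v (r n) p) ≤ C1 * (C * X) + B := by
        intro m
        have h2 : ∀ n, KB.A s (fun p => KB.D v μ p * KB.Sop (T n) p + KB.D v (r n) p) ≤
            C1 * KB.A s (T n) + KB.A (s + 1) (r n) := by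
          intro n
          have e1 := KB.A_add s ((hμ.hD v).mul (KB.Sop_sp (h.hT n))) ((h.hr n).hD v)
          have e2 := hC3 _ _ (hμ.hD v) (KB.Sop_sp (h.hT n)) hMv
          have e3 := mul_le_mul_of_nonneg_left (KB.A_Sop_le s (h.hT n)) hC1
          have e4 := hle (r n)
          linarith
        refine (Finset.sum_le_sum fun n _ => h2 n).trans ?_
        rw [Finset.sum_add_distrib, ← Finset.mul_sum]
        exact add_le_add (mul_le_mul_of_nonneg_left (hTs' m) hC1) (hB m)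
      have h3 := hC2 μ hμ hb hMp _ _ _ (KBU_step hμ hk0 hb h v hv) _ h1 m
      refine h3.trans (mul_le_mul_of_nonneg_left ?_ hC)
      have h4 := hle (T 0)
      rw [hX]
      linarith
    have s1 := step (1, 0) (fun f hf => KB.D1_Sop hf) hM.2.1 (fun f => KB.A_D1_le s f)
    have s2 := step (0, 1) (fun f hf => KB.D2_Sop hf) hM.2.2 (fun f => KB.A_D2_le s f)
    have h5 : ∑ n ∈ Finset.range m, KB.A (s + 1) (T n) =
        ∑ n ∈ Finset.range m, KB.N (T n) + (∑ n ∈ Finset.range m, KB.A s (KB.D (1, 0) (T n)) +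
          ∑ n ∈ Finset.range m, KB.A s (KB.D (0, 1) (T n))) := by
      rw [← Finset.sum_add_distrib, ← Finset.sum_add_distrib]
      exact Finset.sum_congr rfl fun n _ => rfl
    rw [h5, ← hX]
    have h6 : (C + 2 * (C * (1 + C1 * C))) * X = C * X + (C * (X + C1 * (C * X)) +
        C * (X + C1 * (C * X))) := by ring
    rw [h6]
    linarith

theorem pKBU : Pool.Agent.Helper68.QC.StKBU := by
  intro k hk0 hk s M
  obtain ⟨C, hC, h⟩ := KBU_neumann hk0 hk s M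
  obtain ⟨C2, hC2⟩ := KBU_A_le s M
  refine ⟨C * (C2 + 0), fun μ hμ hb hM m => ?_⟩
  have hz : ∀ s, KB.A s (fun _ => 0) = 0 := by
    intro s
    have := KB.A_const_mul s (KB.SP.const 0) 0
    simpa using this
  have hrec : KBURec μ k (KB.bT μ) (fun _ _ => 0) (fun _ => 0) := by
    refine ⟨KB.bT_sp hμ, fun _ => KB.SP.const 0, fun n => ?_, fun n => ?_⟩
    · ext p; simp [KB.bT]
    · have h2 := KB.N_mul_le (KB.Sop_sp (KB.bT_sp hμ n)).continuous hμ.continuous hk0 hb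
      have h4 := mul_le_mul_of_nonneg_left (KB.N_Sop_le (KB.bT_sp hμ n)) hk0
      have := KB.N_nonneg (fun _ : ℝ × ℝ => (0 : ℂ))
      simp only [KB.bT]
      linarith
  have h1 := h μ hμ hb hM (KB.bT μ) (fun _ _ => 0) (fun _ => 0) hrec 0
    (fun m => by simp only [hz, Finset.sum_const_zero, le_refl]) m
  refine h1.trans (mul_le_mul_of_nonneg_left ?_ hC)
  have h2 := hC2 μ hμ hM
  have h3 : KB.bT μ 0 = μ := rfl
  rw [h3]
  linarith

end Pool.Agent.Helper6.QC
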